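import Mathlib

/-! A law of large numbers for bounded quasi-orthogonal sequences, and subsequences of weakly
convergent bounded sequences all of whose subsequences converge almost surely in the sense of
Cesàro. -/

set_option autoImplicit false

open MeasureTheory Filter Topology Finset

namespace Pool.Agent.Helper99.KO

variable {Ω : Type*} [MeasurableSpace Ω] {P : Measure Ω} [IsProbabilityMeasure P]

theorem mul_half_le (K : ℕ) : (K : ℝ) * (2 * (1 / 2) ^ K) ≤ 1 := by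
  have h : ∀ K : ℕ, (2 * K : ℝ) ≤ 2 ^ K := by
    intro K
    induction K with
    | zero => norm_num
    | succ K ih =>
      rcases Nat.eq_zero_or_pos K with rfl | hK
      · norm_num
      · have h1 : (1 : ℝ) ≤ K := by exact_mod_cast hK
        rw [pow_succ]
        push_cast
        linarith
  have h2 : (0 : ℝ) < 2 ^ K := by positivity
  rw [one_div, inv_pow]
  have e : (K : ℝ) * (2 * ((2 : ℝ) ^ K)⁻¹) = (2 * K) / 2 ^ K := by
    rw [div_eq_mul_inv]
    ring
  rw [e, div_le_one h2]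
  exact h K

theorem int_prod {Z Z' : Ω → ℝ} {B B' : ℝ} (hm : AEStronglyMeasurable Z P)
    (hm' : AEStronglyMeasurable Z' P) (hB : ∀ᵐ o ∂P, |Z o| ≤ B) (hB' : ∀ᵐ o ∂P, |Z' o| ≤ B') :
    Integrable (fun o => Z o * Z' o) P := by
  refine Integrable.of_bound (hm.mul hm') (B * B') ?_
  filter_upwards [hB, hB'] with o h1 h2
  rw [Real.norm_eq_abs, abs_mul]
  exact mul_le_mul h1 h2 (abs_nonneg _) ((abs_nonneg _).trans h1)

theorem abs_int_prod {Z Z' : Ω → ℝ} {B B' : ℝ} (hB : ∀ᵐ o ∂P, |Z o| ≤ B)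
    (hB' : ∀ᵐ o ∂P, |Z' o| ≤ B') : |∫ o, Z o * Z' o ∂P| ≤ B * B' := by
  have h := norm_integral_le_of_norm_le_const (μ := P) (f := fun o => Z o * Z' o) (C := B * B') (by
    filter_upwards [hB, hB'] with o h1 h2
    rw [Real.norm_eq_abs, abs_mul]
    exact mul_le_mul h1 h2 (abs_nonneg _) ((abs_nonneg _).trans h1))
  simpa using h

/-- the second moments of the partial sums -/
theorem moment {Z : ℕ → Ω → ℝ} {B : ℝ} (hB0 : 0 ≤ B) (hm : ∀ k, AEStronglyMeasurable (Z k) P)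
    (hB : ∀ k, ∀ᵐ o ∂P, |Z k o| ≤ B) {n0 : ℕ}
    (hc : ∀ i k, i < k → n0 ≤ k → |∫ o, Z i o * Z k o ∂P| ≤ 2 * (1 / 2) ^ k) (K : ℕ) :
    ∫ o, (∑ k ∈ range K, Z k o) ^ 2 ∂P ≤ (2 * (1 + n0 * B ^ 2) + B ^ 2) * K := by
  have hS : ∀ K : ℕ, AEStronglyMeasurable (fun o => ∑ k ∈ range K, Z k o) P := by
    intro K
    exact Finset.aestronglyMeasurable_fun_sum _ fun k _ => hm k
  have hSB : ∀ K : ℕ, ∀ᵐ o ∂P, |∑ k ∈ range K, Z k o| ≤ K * B := by
    intro K
    have h : ∀ᵐ o ∂P, ∀ k, |Z k o| ≤ B := ae_all_iff.2 hB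
    filter_upwards [h] with o ho
    refine (Finset.abs_sum_le_sum_abs _ _).trans ?_
    refine (Finset.sum_le_sum fun k _ => ho k).trans ?_
    simp
  induction K with
  | zero => simp
  | succ K ih =>
    have e : ∀ o, (∑ k ∈ range (K + 1), Z k o) ^ 2 = (∑ k ∈ range K, Z k o) * (∑ k ∈ range K, Z k o)
        + (2 * ((∑ k ∈ range K, Z k o) * Z K o) + Z K o * Z K o) := by
      intro o
      rw [Finset.sum_range_succ]
      ring
    have i1 := int_prod (hS K) (hS K) (hSB K) (hSB K)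
    have i2 := int_prod (hS K) (hm K) (hSB K) (hB K)
    have i3 := int_prod (hm K) (hm K) (hB K) (hB K)
    have i4 : Integrable (fun o => 2 * ((∑ k ∈ range K, Z k o) * Z K o) + Z K o * Z K o) P :=
      (i2.const_mul 2).add i3
    have i5 : Integrable (fun o => 2 * ((∑ k ∈ range K, Z k o) * Z K o)) P := i2.const_mul 2
    simp only [e]
    rw [integral_add i1 i4, integral_add i5 i3, integral_const_mul]
    have h3 : ∫ o, Z K o * Z K o ∂P ≤ B ^ 2 := by
      have := (le_abs_self _).trans (abs_int_prod (P := P) (hB K) (hB K))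
      rwa [← sq] at this
    have h2 : ∫ o, (∑ k ∈ range K, Z k o) * Z K o ∂P ≤ 1 + n0 * B ^ 2 := by
      have e2 : ∫ o, (∑ k ∈ range K, Z k o) * Z K o ∂P = ∑ k ∈ range K, ∫ o, Z k o * Z K o ∂P := by
        rw [← integral_finset_sum _ fun k _ => int_prod (hm k) (hm K) (hB k) (hB K)]
        refine integral_congr_ae (Filter.Eventually.of_forall fun o => ?_)
        simp only [Finset.sum_mul]
      rw [e2]
      rcases le_or_gt n0 K with h | h
      · have h4 : ∑ k ∈ range K, ∫ o, Z k o * Z K o ∂P ≤ ∑ k ∈ range K, (2 * (1 / 2) ^ K : ℝ) :=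
          Finset.sum_le_sum fun k hk => (le_abs_self _).trans (hc k K (Finset.mem_range.1 hk) h)
        rw [Finset.sum_const, Finset.card_range, nsmul_eq_mul] at h4
        have h5 := mul_half_le K
        have h6 : (0 : ℝ) ≤ n0 * B ^ 2 := by positivity
        linarith
      · have h4 : ∑ k ∈ range K, ∫ o, Z k o * Z K o ∂P ≤ ∑ k ∈ range K, B ^ 2 :=
          Finset.sum_le_sum fun k hk => by
            have := (le_abs_self _).trans (abs_int_prod (P := P) (hB k) (hB K))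
            rwa [← sq] at this
        rw [Finset.sum_const, Finset.card_range, nsmul_eq_mul] at h4
        have h5 : (K : ℝ) * B ^ 2 ≤ n0 * B ^ 2 :=
          mul_le_mul_of_nonneg_right (by exact_mod_cast h.le) (by positivity)
        linarith
    have ih' : ∫ o, (∑ k ∈ range K, Z k o) * (∑ k ∈ range K, Z k o) ∂P ≤
        (2 * (1 + n0 * B ^ 2) + B ^ 2) * K := by
      simpa only [sq] using ih
    push_cast
    linarith

/-- **The law of large numbers.** -/
theorem lln {Z : ℕ → Ω → ℝ} {B : ℝ} (hB0 : 0 ≤ B) (hm : ∀ k, AEStronglyMeasurable (Z k) P)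
    (hB : ∀ k, ∀ᵐ o ∂P, |Z k o| ≤ B) {n0 : ℕ}
    (hc : ∀ i k, i < k → n0 ≤ k → |∫ o, Z i o * Z k o ∂P| ≤ 2 * (1 / 2) ^ k) :
    ∀ᵐ o ∂P, Tendsto (fun K : ℕ => (∑ k ∈ range K, Z k o) / K) atTop (𝓝 0) := by
  set C : ℝ := 2 * (1 + n0 * B ^ 2) + B ^ 2 with hC
  have hC0 : 0 ≤ C := by positivity
  set S : ℕ → Ω → ℝ := fun K o => ∑ k ∈ range K, Z k o with hS
  set W : ℕ → Ω → ℝ := fun K o => (S ((K + 1) ^ 2) o / ((K + 1 : ℕ) : ℝ) ^ 2) ^ 2 with hW
  have hSm : ∀ K : ℕ, AEStronglyMeasurable (S K) P := by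
    intro K
    exact Finset.aestronglyMeasurable_fun_sum _ fun k _ => hm k
  have hSB : ∀ K : ℕ, ∀ᵐ o ∂P, |S K o| ≤ K * B := by
    intro K
    have h : ∀ᵐ o ∂P, ∀ k, |Z k o| ≤ B := ae_all_iff.2 hB
    filter_upwards [h] with o ho
    refine (Finset.abs_sum_le_sum_abs _ _).trans ?_
    refine (Finset.sum_le_sum fun k _ => ho k).trans ?_
    simp
  have hWi : ∀ K, Integrable (W K) P := by
    intro K
    have h1 := (int_prod (hSm ((K + 1) ^ 2)) (hSm ((K + 1) ^ 2)) (hSB _) (hSB _)).mul_const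
      ((((K + 1 : ℕ) : ℝ) ^ 2)⁻¹ ^ 2)
    refine h1.congr (Filter.Eventually.of_forall fun o => ?_)
    simp only [hW]
    rw [div_eq_mul_inv]
    ring
  have hWe : ∀ K, ∫ o, W K o ∂P ≤ C * (1 / ((K : ℝ) + 1) ^ 2) := by
    intro K
    have h1 : ∫ o, W K o ∂P = (∫ o, (S ((K + 1) ^ 2) o) ^ 2 ∂P) * ((((K + 1 : ℕ) : ℝ) ^ 2)⁻¹ ^ 2) := by
      rw [← integral_mul_const]
      refine integral_congr_ae (Filter.Eventually.of_forall fun o => ?_)
      simp only [hW]
      rw [div_eq_mul_inv, mul_pow]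
    have h2 := moment hB0 hm hB hc ((K + 1) ^ 2)
    rw [h1]
    refine (mul_le_mul_of_nonneg_right h2 (by positivity)).trans (le_of_eq ?_)
    have h3 : ((K : ℝ) + 1) ≠ 0 := by positivity
    push_cast
    rw [← hC]
    field_simp
  have hsum : Summable fun K : ℕ => C * (1 / ((K : ℝ) + 1) ^ 2) := by
    refine Summable.mul_left C ?_
    have := (summable_nat_add_iff 1).2 (Real.summable_one_div_nat_pow.2 (by norm_num : 1 < 2))
    simpa using this
  have hae : ∀ᵐ o ∂P, ∑' K, ENNReal.ofReal (W K o) < ⊤ := by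
    refine ae_lt_top' ?_ ?_
    · exact AEMeasurable.tsum fun K => (hWi K).aemeasurable.ennreal_ofReal
    · rw [lintegral_tsum fun K => (hWi K).aemeasurable.ennreal_ofReal]
      refine ne_of_lt (lt_of_le_of_lt (ENNReal.tsum_le_tsum (g := fun K : ℕ =>
        ENNReal.ofReal (C * (1 / ((K : ℝ) + 1) ^ 2))) fun K => ?_) ?_)
      · rw [← ofReal_integral_eq_lintegral_ofReal (hWi K)
          (Filter.Eventually.of_forall fun o => sq_nonneg _)]
        exact ENNReal.ofReal_le_ofReal (hWe K)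
      · rw [← ENNReal.ofReal_tsum_of_nonneg (fun K => by positivity) hsum]
        exact ENNReal.ofReal_lt_top
  have hall : ∀ᵐ o ∂P, ∀ k, |Z k o| ≤ B := ae_all_iff.2 hB
  filter_upwards [hae, hall] with o ho hoB
  -- along the squares
  have h1 : Tendsto (fun K => ENNReal.ofReal (W K o)) atTop (𝓝 0) :=
    ENNReal.tendsto_atTop_zero_of_tsum_ne_top ho.ne
  have h2 : Tendsto (fun K => W K o) atTop (𝓝 0) := by
    have h3 := (ENNReal.tendsto_toReal ENNReal.zero_ne_top).comp h1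
    refine h3.congr fun K => ?_
    simp only [Function.comp_apply]
    rw [ENNReal.toReal_ofReal (sq_nonneg _)]
  have h3 : Tendsto (fun K : ℕ => |S ((K + 1) ^ 2) o / ((K + 1 : ℕ) : ℝ) ^ 2|) atTop (𝓝 0) := by
    have h4 := h2.sqrt
    rw [Real.sqrt_zero] at h4
    refine h4.congr fun K => ?_
    simp only [hW]
    rw [Real.sqrt_sq_eq_abs]
  -- interpolation
  rw [Metric.tendsto_atTop] at h3 ⊢
  intro ε hε
  obtain ⟨N, hN⟩ := h3 (ε / 2) (by positivity)
  obtain ⟨N', hN'⟩ := exists_nat_gt (4 * B / ε)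
  refine ⟨(max N N' + 1) ^ 2, fun n hn => ?_⟩
  set q := Nat.sqrt n with hq
  have hqn : max N N' + 1 ≤ q := by
    rw [hq]
    exact Nat.le_sqrt'.2 hn
  obtain ⟨m, hm'⟩ : ∃ m, q = m + 1 := ⟨q - 1, by omega⟩
  have hmN : N ≤ m := by
    have := le_max_left N N'
    omega
  have hmN' : N' ≤ m := by
    have := le_max_right N N'
    omega
  have k1 : q ^ 2 ≤ n := Nat.sqrt_le' n
  have k2 : n < (q + 1) ^ 2 := Nat.lt_succ_sqrt' n
  have k3 := hN m hmN
  rw [Real.dist_eq, sub_zero, abs_abs] at k3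
  rw [← hm'] at k3
  have hq0 : (0 : ℝ) < q := by
    have : 0 < q := by omega
    exact_mod_cast this
  have k4 : |S n o| ≤ |S (q ^ 2) o| + 2 * q * B := by
    have e : S n o = S (q ^ 2) o + ∑ k ∈ Finset.Ico (q ^ 2) n, Z k o := by
      simp only [hS]
      rw [Finset.sum_range_add_sum_Ico _ k1]
    rw [e]
    refine (abs_add_le _ _).trans (add_le_add le_rfl ?_)
    refine (Finset.abs_sum_le_sum_abs _ _).trans ?_
    refine (Finset.sum_le_sum fun k _ => hoB k).trans ?_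
    rw [Finset.sum_const, Nat.card_Ico, nsmul_eq_mul]
    refine mul_le_mul_of_nonneg_right ?_ hB0
    have : n - q ^ 2 ≤ 2 * q := by
      have : (q + 1) ^ 2 = q ^ 2 + 2 * q + 1 := by ring
      omega
    exact_mod_cast this
  have hn0 : (0 : ℝ) < n := by
    have hq1 : 0 < q := by omega
    have : 0 < n := lt_of_lt_of_le (pow_pos hq1 2) k1
    exact_mod_cast this
  have hqn' : (q : ℝ) ^ 2 ≤ n := by exact_mod_cast k1
  rw [Real.dist_eq, sub_zero, abs_div, abs_of_pos hn0]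
  have k5 : |S n o| / n ≤ |S (q ^ 2) o / (q : ℝ) ^ 2| + 2 * B / q := by
    rw [abs_div, abs_of_pos (by positivity : (0 : ℝ) < (q : ℝ) ^ 2)]
    calc |S n o| / n ≤ (|S (q ^ 2) o| + 2 * q * B) / n := by gcongr
      _ ≤ (|S (q ^ 2) o| + 2 * q * B) / (q : ℝ) ^ 2 := by
          refine div_le_div_of_nonneg_left (by positivity) (by positivity) hqn'
      _ = |S (q ^ 2) o| / (q : ℝ) ^ 2 + 2 * B / q := by
          field_simp
  have k6 : 2 * B / q < ε / 2 := by
    have h7 : 4 * B / ε < q := by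
      have : (N' : ℝ) ≤ q := by
        have : N' ≤ q := by omega
        exact_mod_cast this
      linarith
    rw [div_lt_iff₀ hε] at h7
    rw [div_lt_iff₀ hq0]
    linarith
  have k7 : |S n o| / n < ε := by linarith
  exact k7

/-- **Subsequences.** -/
theorem extract {Y : ℕ → ℕ → Ω → ℝ} {B : ℕ → ℝ} (hB0 : ∀ n, 0 ≤ B n)
    (hm : ∀ n j, AEStronglyMeasurable (Y n j) P) (hB : ∀ n j, ∀ᵐ o ∂P, |Y n j o| ≤ B n)
    (hw : ∀ (n : ℕ) (χ : Ω → ℝ), Integrable χ P →
      Tendsto (fun j => ∫ o, χ o * Y n j o ∂P) atTop (𝓝 0)) :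
    ∃ σ : ℕ → ℕ, StrictMono σ ∧ ∀ τ : ℕ → ℕ, StrictMono τ → ∀ n, ∀ᵐ o ∂P,
      Tendsto (fun K : ℕ => (∑ k ∈ range K, Y n (σ (τ k)) o) / K) atTop (𝓝 0) := by
  have hth : ∀ a : ℕ, ∃ N : ℕ, a < N ∧ ∀ m, N ≤ m → ∀ i ≤ a, ∀ n ≤ a,
      |∫ o, Y n i o * Y n m o ∂P| ≤ (1 / 2) ^ a := by
    intro a
    have h1 : ∀ᶠ m in atTop, ∀ i ∈ Set.Iic a, ∀ n ∈ Set.Iic a,
        |∫ o, Y n i o * Y n m o ∂P| ≤ (1 / 2) ^ a := by
      rw [Filter.eventually_all_finite (Set.finite_Iic a)]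
      intro i _
      rw [Filter.eventually_all_finite (Set.finite_Iic a)]
      intro n _
      have h2 := hw n (Y n i) (Integrable.of_bound (hm n i) (B n) (hB n i))
      have h3 := h2.abs
      rw [abs_zero] at h3
      exact (h3.eventually (gt_mem_nhds (by positivity : (0 : ℝ) < (1 / 2) ^ a))).mono
        fun m hm => le_of_lt hm
    obtain ⟨N, hN⟩ := Filter.eventually_atTop.1 h1
    exact ⟨max N (a + 1), by omega, fun m hm i hi n hn =>
      hN m ((le_max_left _ _).trans hm) i hi n hn⟩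
  choose N hN1 hN2 using hth
  set σ : ℕ → ℕ := fun k => N^[k] 0 with hσ
  have hσs : ∀ k, σ (k + 1) = N (σ k) := fun k => Function.iterate_succ_apply' N k 0
  have hmono : StrictMono σ := strictMono_nat_of_lt_succ fun k => by
    rw [hσs]
    exact hN1 _
  refine ⟨σ, hmono, fun τ hτ n => ?_⟩
  refine lln (hB0 n) (fun k => hm n _) (fun k => hB n _) (n0 := n + 1) ?_
  intro i k hik hnk
  have hk1 : 1 ≤ τ k := by
    have := hτ hik
    omega
  obtain ⟨t, ht⟩ : ∃ t, τ k = t + 1 := ⟨τ k - 1, by omega⟩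
  have hτk : k ≤ τ k := hτ.id_le k
  have h1 : σ (τ i) ≤ σ t := hmono.monotone (by
    have := hτ hik
    omega)
  have h2 : t ≤ σ t := hmono.id_le t
  rw [ht, hσs]
  refine (hN2 (σ t) _ le_rfl _ h1 n (by omega)).trans ?_
  have h3 : (1 / 2 : ℝ) ^ (σ t) ≤ (1 / 2) ^ (k - 1) :=
    pow_le_pow_of_le_one (by norm_num) (by norm_num) (by omega)
  refine h3.trans (le_of_eq ?_)
  obtain ⟨l, rfl⟩ : ∃ l, k = l + 1 := ⟨k - 1, by omega⟩
  rw [Nat.add_sub_cancel, pow_succ]
  ring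

end Pool.Agent.Helper99.KO
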